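import Mathlib

set_option autoImplicit false

namespace Pool.Agent.Results.MP_a59f64_al.Quadric

open MvPolynomial Function

lemma elem {K σ : Type} [Field K] [DecidableEq σ] (i : σ) (g : MvPolynomial σ K)
    (hg : aeval (update X i (X i - g)) g = g) :
    Injective (aeval (update X i (X i + g)) : MvPolynomial σ K →ₐ[K] MvPolynomial σ K) := by
  suffices h : (aeval (update X i (X i - g)) : MvPolynomial σ K →ₐ[K] MvPolynomial σ K).comp
      (aeval (update X i (X i + g))) = AlgHom.id K _ from fun a b hab => by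
    rw [← AlgHom.id_apply (R := K) a, ← h, AlgHom.comp_apply, hab, ← AlgHom.comp_apply, h,
      AlgHom.id_apply]
  refine algHom_ext fun j => ?_
  by_cases h : j = i <;> simp [h, hg, -aeval_eq_bind₁]

lemma icomp {K A B C : Type} [Field K] [Ring A] [Ring B] [Ring C] [Algebra K A] [Algebra K B]
    [Algebra K C] {f : B →ₐ[K] C} {g : A →ₐ[K] B} (hf : Injective f) (hg : Injective g) :
    Injective (f.comp g) := hf.comp hg

theorem result (K : Type) [Field K] [CharZero K] (n : ℕ) :
    ∃ (p : MvPolynomial (Fin (n + 3)) K)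
      (φ : MvPolynomial (Fin (n + 3)) K →ₐ[K] MvPolynomial (Fin (n + 3)) K),
      Injective φ ∧ φ p = X 0 ∧
      ¬ ∃ α : MvPolynomial (Fin (n + 3)) K ≃ₐ[K] MvPolynomial (Fin (n + 3)) K, α (X 0) = p := by
  let q : Polynomial (MvPolynomial (Fin (n + 2)) K) := Polynomial.C (-X 1) * Polynomial.X ^ 2 +
    Polynomial.C (2 * X 0) * Polynomial.X + Polynomial.C 1
  have h1 : (-X 1 : MvPolynomial (Fin (n + 2)) K) ≠ 0 := by simp
  have hq : Injective (Polynomial.aeval q : Polynomial _ →ₐ[MvPolynomial (Fin (n + 2)) K] _) :=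
    transcendental_iff_injective.1 (Polynomial.transcendental q
      (by rw [Polynomial.natDegree_quadratic h1]; simp)
      (by rw [Polynomial.leadingCoeff_quadratic h1]; exact mem_nonZeroDivisors_of_ne_zero h1))
  let e := finSuccEquiv K (n + 2)
  let ψ := (e.symm.toAlgHom.comp ((Polynomial.aeval q).restrictScalars K)).comp e.toAlgHom
  have e0 : e (X 0) = Polynomial.X := finSuccEquiv_X_zero
  have e1 : e (X 1) = Polynomial.C (X 0) := finSuccEquiv_X_succ (j := 0)
  have e2 : e (X 2) = Polynomial.C (X 1) := finSuccEquiv_X_succ (j := 1)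
  have h2 : ψ (X 0 * X 2 - X 1 ^ 2) = X 2 - (X 1 - X 0 * X 2) ^ 2 := by
    apply e.injective
    simp [ψ, e0, e1, e2, q, map_ofNat]; ring
  have n1 : (0 : Fin (n + 3)) ≠ 1 := by simp
  have n2 : (0 : Fin (n + 3)) ≠ 2 := by simp [Fin.ext_iff, Nat.mod_eq_of_lt]
  have n3 : (1 : Fin (n + 3)) ≠ 2 := by simp [Fin.ext_iff, Nat.mod_eq_of_lt]
  refine ⟨X 0 * X 2 - X 1 ^ 2, (rename (Equiv.swap 0 2)).comp
    ((aeval (update X 2 (X 2 + X 1 ^ 2))).comp ((aeval (update X 1 (X 1 + X 0 * X 2))).comp ψ)),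
    icomp (rename_injective _ (Equiv.injective _)) (icomp (elem 2 _ (by simp [n3]))
      (icomp (elem 1 _ (by simp [n1, n3.symm])) (icomp (icomp e.symm.injective hq) e.injective))),
    ?_, fun ⟨α, h⟩ => ?_⟩
  · simp only [AlgHom.comp_apply, h2]
    simp [n1, n2, n3, n3.symm]
  · have := congrArg (fun f => constantCoeff (α (pderiv 0 (α.symm f)))) h
    simp at this

end Pool.Agent.Results.MP_a59f64_al.Quadric
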